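import Mathlib
import Pool.Agent.Q284.FDQ.App
import Pool.Agent.Y667.RP.Disc
import Pool.Agent.W672.FK.Lowf
import Pool.Agent.W307.RT.Tors

/-!
# Adelic points modulo two on a positive proportion of the curves with full rational 2-torsion

All elliptic curves `E : y² = x³ + A x + B` over `ℚ` with full rational 2-torsion, ordered by the naive
height or by the absolute value of the minimal discriminant. For a root `e` of `x³ + A x + B` and a
nonzero integer `q` the quaternion algebra `(x - e, q)` is an element of the Brauer group of `E`. For a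
positive proportion of the curves every adelic point orthogonal to these elements is congruent to a
rational point modulo `2 E(ℚ_v)` at all the places `v`, the real one included: for these curves the
assertion of the problem holds modulo two.
-/

set_option autoImplicit false

namespace Pool.Agent.Results.MP_ab3ecb_nt.AdelicPointsModuloTwo

open Finset Filter Topology

/-- the curve `y² = x³ + A x + B` over `ℚ` -/
def E (A B : ℤ) : WeierstrassCurve ℚ := ⟨0, 0, 0, (A : ℚ), (B : ℚ)⟩

/-- the absolute value of the minimal discriminant of an elliptic curve `W` over `ℚ`: the smallest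
absolute value of the discriminant of a Weierstrass equation `V` with integer coefficients which is
isomorphic to `W` over `ℚ` -/
noncomputable def minDisc (W : WeierstrassCurve ℚ) : ℕ :=
  sInf {n : ℕ | ∃ (V : WeierstrassCurve ℤ) (C : WeierstrassCurve.VariableChange ℚ),
    C • W = V.map (Int.castRingHom ℚ) ∧ n = V.Δ.natAbs}

/-- the naive height of `y² = x³ + A x + B` is at most `Z` -/
def HeightLe (c : ℤ × ℤ) (Z : ℕ) : Prop := 4 * |c.1| ^ 3 ≤ Z ∧ 27 * c.2 ^ 2 ≤ Z

/-- the minimal discriminant of `y² = x³ + A x + B` is at most `Z` in absolute value -/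
def DiscLe (c : ℤ × ℤ) (Z : ℕ) : Prop := minDisc (E c.1 c.2) ≤ Z

/-- The pairs `(A, B)` of integers such that `4 A³ + 27 B² ≠ 0`, there is no prime `p` with
`p⁴ ∣ A` and `p⁶ ∣ B`, `Z/2 x Z/2` embeds in the group of the rational points of
`y² = x³ + A x + B`, and the size (`HeightLe` or `DiscLe`) is at most `Z`. Every elliptic curve over
`ℚ` with full rational 2-torsion is isomorphic to `E A B` for exactly one pair with the first three
properties. -/
def Fam (I : ℤ × ℤ → ℕ → Prop) (Z : ℕ) : Set (ℤ × ℤ) :=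
  {c : ℤ × ℤ | 4 * c.1 ^ 3 + 27 * c.2 ^ 2 ≠ 0 ∧
    (∀ p : ℕ, p.Prime → ¬ ((p : ℤ) ^ 4 ∣ c.1 ∧ (p : ℤ) ^ 6 ∣ c.2)) ∧
    (∃ f : ZMod 2 × ZMod 2 →+ (E c.1 c.2).toAffine.Point, Function.Injective f) ∧ I c Z}

/-- the proportion of the curves of `S` among the curves of size at most `Z` -/
noncomputable def proportion (I : ℤ × ℤ → ℕ → Prop) (S : Set (ℤ × ℤ)) (Z : ℕ) : ℝ :=
  ((Fam I Z ∩ S).ncard : ℝ) / (Fam I Z).ncard

lemma FamH_eq (H : ℕ) : Fam HeightLe H = (Pool.Agent.W307.RT.Cv 2 H : Set (ℤ × ℤ)) := by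
  classical
  ext c
  have h : Pool.Agent.W307.RT.HasT 2 (Pool.Agent.W307.RT.Sh c.1 c.2) ↔
    ∃ f : ZMod 2 × ZMod 2 →+ (E c.1 c.2).toAffine.Point, Function.Injective f :=
    Pool.Agent.W307.RT.tors_iff
  unfold Fam HeightLe Pool.Agent.W307.RT.Cv
  rw [Set.mem_ofPred_eq, mem_coe, mem_filter, h, mem_product, mem_Icc, mem_Icc]
  constructor
  · rintro ⟨h1, h2, h3, h4, h5⟩
    refine ⟨⟨?_, ?_⟩, h1, h4, h5, h2, h3⟩
    · rw [← abs_le]
      have h0 := abs_nonneg c.1
      rcases eq_or_lt_of_le h0 with h6 | h6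
      · rw [← h6]; positivity
      · have : 1 ≤ |c.1| := h6
        nlinarith [mul_nonneg h0 h0, mul_self_nonneg (|c.1| - 1)]
    · rw [← abs_le]
      have h0 := abs_nonneg c.2
      rw [← sq_abs] at h5
      rcases eq_or_lt_of_le h0 with h6 | h6
      · rw [← h6]; positivity
      · have : 1 ≤ |c.2| := h6
        nlinarith
  · rintro ⟨-, h1, h4, h5, h2, h3⟩
    exact ⟨h1, h2, h3, h4, h5⟩

lemma FamD_eq (D : ℕ) : Fam DiscLe D = (Pool.Agent.TH344.DS.Dv D : Set (ℤ × ℤ)) := by
  classical
  have h0 : Fam DiscLe D = Pool.Agent.W307.RS.DvS 2 D := by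
    ext c
    have h : Pool.Agent.W307.RT.HasT 2 (Pool.Agent.W307.RT.Sh c.1 c.2) ↔
        ∃ f : ZMod 2 × ZMod 2 →+ (E c.1 c.2).toAffine.Point, Function.Injective f :=
      Pool.Agent.W307.RT.tors_iff
    unfold Fam Pool.Agent.W307.RS.DvS
    rw [Set.mem_ofPred_eq, Set.mem_ofPred_eq, h]
    exact Iff.rfl
  rw [h0]
  unfold Pool.Agent.TH344.DS.Dv
  rw [dif_pos (Pool.Agent.TH344.DS.excd.1 D), Set.Finite.coe_toFinset]

/-- The number of these curves tends to infinity (ordering by height). -/
lemma tendstoH : Tendsto (fun Z : ℕ => (Fam HeightLe Z).ncard) atTop atTop := by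
  simp only [FamH_eq, Set.ncard_coe_finset]
  exact Pool.Agent.W307.RT.tendsto_of_low Pool.Agent.W672.FK.lowf

/-- The number of these curves tends to infinity (ordering by the minimal discriminant). -/
lemma tendstoD : Tendsto (fun Z : ℕ => (Fam DiscLe Z).ncard) atTop atTop := by
  have h1 := Pool.Agent.W307.RT.tendsto_of_low Pool.Agent.W672.FK.lowf
  have h2 : Tendsto (fun D : ℕ => (Pool.Agent.W307.RT.Cv 2 (D / 32)).card) atTop atTop :=
    h1.comp (Nat.tendsto_div_const_atTop (by norm_num))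
  obtain ⟨hD1, hD2, hD3⟩ := Pool.Agent.TH344.DS.excd
  refine tendsto_atTop_mono (fun D => ?_) h2
  have h3 : (Pool.Agent.TH344.DS.Dv D : Set (ℤ × ℤ)) = Pool.Agent.W307.RS.DvS 2 D := by
    unfold Pool.Agent.TH344.DS.Dv
    rw [dif_pos (hD1 D), Set.Finite.coe_toFinset]
  rw [FamD_eq, h3, ← Set.ncard_coe_finset]
  exact Set.ncard_le_ncard (Pool.Agent.W307.RS.Cv_sub Pool.Agent.W554.RS.mdl 2 (D / 32) D
    (Nat.mul_div_le D 32)) (hD1 D)

/-- the curve `y² = x³ + A x + B` over the integers -/
def W (A B : ℤ) : WeierstrassCurve.Affine ℤ := ⟨0, 0, 0, A, B⟩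

/-- the points of `y² = x³ + A x + B` over a field -/
abbrev Pt (A B : ℤ) (K : Type) [Field K] : Type := ((W A B).baseChange K).Point

open Classical in
/-- The value of the function `x - e` at a point, modulo squares, `e` a root of `x³ + A x + B`. The
divisor of the function is `2 (e, 0) - 2 O`; at the zero the value is that of the product of the
two other functions (the derivative of the polynomial), at the pole it is `1`. -/
noncomputable def value {K : Type} [Field K] {A B : ℤ} (P : Pt A B K) (e : ℤ) : K :=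
  match P with
  | 0 => 1
  | .some x _ _ => if x - (e : K) = 0 then ((3 * e ^ 2 + A : ℤ) : K) else x - (e : K)

/-- an adelic point -/
structure Adelic (A B : ℤ) where
  /-- the real component -/
  re : Pt A B ℝ
  /-- the `p`-adic components -/
  pa : ∀ p : Nat.Primes, Pt A B ℚ_[(p : ℕ)]

/-- The quaternion algebra `(a, b)` over `F` splits, that is, the Hilbert symbol `(a, b)` is `1`:
the conic `z ^ 2 = a x ^ 2 + b y ^ 2` has a point over `F`. -/
def Splits {F : Type} [Field F] (a b : F) : Prop :=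
  ∃ x y z : F, (x ≠ 0 ∨ y ≠ 0 ∨ z ≠ 0) ∧ z ^ 2 = a * x ^ 2 + b * y ^ 2

/-- The set of the places (`none` is the real one) at which the value of the class `(x - e, q)` at
the adelic point is not trivial. -/
def Ram {A B : ℤ} (P : Adelic A B) (e q : ℤ) : Set (Option Nat.Primes) :=
  {v | match v with
    | none => ¬ Splits (value P.re e) (q : ℝ)
    | some p => ¬ Splits (value (P.pa p) e) (q : ℚ_[(p : ℕ)])}

/-- The adelic point is orthogonal to the classes `(x - e, q)`: the number of the places at which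
the value is not trivial is even, so that the sum of the invariants is zero. -/
def Orthogonal {A B : ℤ} (P : Adelic A B) : Prop :=
  ∀ e : ℤ, e ^ 3 + A * e + B = 0 → ∀ q : ℤ, q ≠ 0 → Even (Ram P e q).ncard

open Classical in
/-- the adelic point is congruent to the rational point `Q` modulo `2 E(ℚ_v)` at all the places -/
def Congruent {A B : ℤ} (P : Adelic A B) (Q : Pt A B ℚ) : Prop :=
  (∃ R : Pt A B ℝ, P.re = WeierstrassCurve.Affine.Point.baseChange ℚ ℝ Q + (R + R)) ∧
    ∀ p : Nat.Primes, ∃ R : Pt A B ℚ_[(p : ℕ)],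
      P.pa p = WeierstrassCurve.Affine.Point.baseChange ℚ ℚ_[(p : ℕ)] Q + (R + R)

/-- The curves for which every class `(x - e, q)` has a nontrivial value at finitely many components
of every adelic point, and every adelic point orthogonal to these classes is congruent to a rational
point modulo `2 E(ℚ_v)` at all the places. -/
def ModTwo : Set (ℤ × ℤ) :=
  {c | (∀ (P : Adelic c.1 c.2) (e q : ℤ), e ^ 3 + c.1 * e + c.2 = 0 → q ≠ 0 → (Ram P e q).Finite) ∧
    ∀ P : Adelic c.1 c.2, Orthogonal P → ∃ Q : Pt c.1 c.2 ℚ, Congruent P Q}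

open Classical in
lemma value_eq {K : Type} [Field K] {A B e e' e'' : ℤ}
    (h : ∀ x : ℤ, x ^ 3 + A * x + B = (x - e) * (x - e') * (x - e'')) (P : Pt A B K) :
    value P e = Pool.Agent.Q284.FDQ.vl (W := (Pool.Agent.Q284.FDQ.WZ A B).baseChange K) P (e : K)
      (((e : K) - e') * (e - e'')) := by
  obtain ⟨hs, hA, -⟩ := Pool.Agent.W402.FK.coef A B e e' e'' h
  have h1 : ((3 * e ^ 2 + A : ℤ) : K) = ((e : K) - e') * (e - e'') := by
    have h2 : 3 * e ^ 2 + A = (e - e') * (e - e'') := by
      rw [hA]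
      linear_combination (2 * e) * hs
    rw [h2]
    push_cast
    ring
  rcases P with _ | ⟨x, y, hn⟩
  · rfl
  · show (if x - (e : K) = 0 then ((3 * e ^ 2 + A : ℤ) : K) else x - (e : K)) = _
    rw [h1]
    rfl

lemma mem_of {c : ℤ × ℤ} (h : Pool.Agent.Q284.FDQ.PR c) : c ∈ ModTwo := by
  classical
  obtain ⟨e1, e2, e3, hp, h12, h13, h23, h4, hc⟩ := h
  have p2 : ∀ x : ℤ, x ^ 3 + c.1 * x + c.2 = (x - e2) * (x - e1) * (x - e3) := by
    intro x; rw [hp]; ring
  have p3 : ∀ x : ℤ, x ^ 3 + c.1 * x + c.2 = (x - e3) * (x - e1) * (x - e2) := by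
    intro x; rw [hp]; ring
  have key : ∀ (P : Adelic c.1 c.2) {e e' e'' : ℤ},
      (∀ x : ℤ, x ^ 3 + c.1 * x + c.2 = (x - e) * (x - e') * (x - e'')) → ∀ q : ℤ,
      Ram P e q = Pool.Agent.W313.BMX.ram
        ⟨Pool.Agent.Q284.FDQ.vl (W := (Pool.Agent.Q284.FDQ.WZ c.1 c.2).baseChange ℝ) P.re (e : ℝ)
          (((e : ℝ) - e') * (e - e'')), fun p =>
          Pool.Agent.Q284.FDQ.vl (W := (Pool.Agent.Q284.FDQ.WZ c.1 c.2).baseChange ℚ_[(p : ℕ)])
            (P.pa p) (e : ℚ_[(p : ℕ)]) (((e : ℚ_[(p : ℕ)]) - e') * (e - e''))⟩ q := by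
    intro P e e' e'' he q
    ext v
    cases v with
    | none =>
      change ¬ Splits (value P.re e) _ ↔ ¬ Pool.Agent.W313.BMX.Splits _ _
      rw [value_eq he]
      exact Iff.rfl
    | some p =>
      change ¬ Splits (value (P.pa p) e) _ ↔ ¬ Pool.Agent.W313.BMX.Splits _ _
      rw [value_eq he]
      exact Iff.rfl
  refine ⟨fun P e q he hq => ?_, fun P hP => ?_⟩
  · rcases Pool.Agent.W402.FK.roots c.1 c.2 e1 e2 e3 hp e he with rfl | rfl | rfl
    · rw [key P hp q]
      exact Pool.Agent.Q284.FDQ.ram_fin hp h12 h13 h23 P.re P.pa hq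
    · rw [key P p2 q]
      exact Pool.Agent.Q284.FDQ.ram_fin p2 h12.symm h23 h13 P.re P.pa hq
    · rw [key P p3 q]
      exact Pool.Agent.Q284.FDQ.ram_fin p3 h13.symm h23.symm h12 P.re P.pa hq
  · obtain ⟨Q, q1, q2⟩ := Pool.Agent.Q284.FDQ.adelic_core hp h12 h13 h23 h4 hc P.re P.pa
      (fun q hq => by
        have := hP e1 (by rw [hp]; ring) q hq
        rwa [key P hp q] at this)
      (fun q hq => by
        have := hP e2 (by rw [hp]; ring) q hq
        rwa [key P p2 q] at this)
    exact ⟨Q, q1, q2⟩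

/-- **Theorem.** Order the elliptic curves over `ℚ` with full rational 2-torsion by the naive height
or by the absolute value of the minimal discriminant. For both orderings there are finitely many
curves of size at most `Z`, their number tends to infinity with `Z`, and a positive proportion of the
curves (the lower density is positive) belongs to `ModTwo`: every adelic point orthogonal to the
classes `(x - e, q)` is congruent to a rational point modulo `2 E(ℚ_v)` at all the places `v`. -/
theorem result : ∀ I : ℤ × ℤ → ℕ → Prop, I = HeightLe ∨ I = DiscLe →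
    (∀ Z : ℕ, (Fam I Z).Finite) ∧ Tendsto (fun Z : ℕ => (Fam I Z).ncard) atTop atTop ∧
    ∃ δ : ℝ, 0 < δ ∧ ∀ᶠ Z : ℕ in atTop, δ ≤ proportion I ModTwo Z := by
  classical
  have h0 : ∃ c : ℝ, 0 < c ∧ ∃ H0 : ℕ, ∀ H : ℕ, H0 ≤ H →
      c * ((Pool.Agent.W307.RT.Cv 2 H).card : ℝ) ≤
        (((Pool.Agent.W307.RT.Cv 2 H).filter Pool.Agent.Q284.FDQ.PR).card : ℝ) := by
    obtain ⟨c, hc, H0, h⟩ := Pool.Agent.Q284.FDQ.curvesPR
    refine ⟨c, hc, H0, fun H hH => (h H hH).trans
      (Nat.cast_le.2 (card_le_card fun k hk => ?_))⟩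
    rw [mem_filter] at hk ⊢
    exact hk
  have hfin : ∀ I : ℤ × ℤ → ℕ → Prop, I = HeightLe ∨ I = DiscLe → ∀ Z : ℕ, (Fam I Z).Finite := by
    rintro I (rfl | rfl) Z
    · rw [FamH_eq]
      exact finite_toSet _
    · rw [FamD_eq]
      exact finite_toSet _
  intro I hI
  refine ⟨hfin I hI, ?_, ?_⟩
  · rcases hI with rfl | rfl
    · exact tendstoH
    · exact tendstoD
  · rcases hI with rfl | rfl
    · obtain ⟨c, hc, H0, h⟩ := h0
      refine ⟨c, hc, ?_⟩
      filter_upwards [eventually_ge_atTop H0, tendstoH.eventually_ge_atTop 1] with H hH hH1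
      unfold proportion
      rw [le_div_iff₀ (by exact_mod_cast hH1)]
      have e1 : (Fam HeightLe H).ncard = (Pool.Agent.W307.RT.Cv 2 H).card := by
        rw [FamH_eq, Set.ncard_coe_finset]
      rw [e1]
      refine (h H hH).trans (Nat.cast_le.2 ?_)
      rw [← Set.ncard_coe_finset]
      refine Set.ncard_le_ncard (fun k hk => ?_) (Set.Finite.inter_of_left
        (hfin _ (Or.inl rfl) _) _)
      rw [mem_coe, mem_filter] at hk
      refine ⟨?_, mem_of hk.2⟩
      rw [FamH_eq, mem_coe]
      exact hk.1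
    · obtain ⟨c, hc, H0, h⟩ := Pool.Agent.Y667.RP.disc_of_height Pool.Agent.Q284.FDQ.PR h0
      refine ⟨c, hc, ?_⟩
      filter_upwards [eventually_ge_atTop H0, tendstoD.eventually_ge_atTop 1] with H hH hH1
      unfold proportion
      rw [le_div_iff₀ (by exact_mod_cast hH1)]
      have e1 : (Fam DiscLe H).ncard = (Pool.Agent.TH344.DS.Dv H).card := by
        rw [FamD_eq, Set.ncard_coe_finset]
      rw [e1]
      refine (h H hH).trans (Nat.cast_le.2 ?_)
      rw [← Set.ncard_coe_finset]
      refine Set.ncard_le_ncard (fun k hk => ?_) (Set.Finite.inter_of_left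
        (hfin _ (Or.inr rfl) _) _)
      rw [mem_coe, mem_filter] at hk
      refine ⟨?_, mem_of hk.2⟩
      rw [FamD_eq, mem_coe]
      exact hk.1

end Pool.Agent.Results.MP_ab3ecb_nt.AdelicPointsModuloTwo
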