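import Mathlib
import Pool.Agent.Q323.FM.Pencil
import Pool.Agent.TH841.FD.BM

/-!
# The Brauer-Manin obstruction for the 2-isogeny coverings in one-parameter families

Let `A = D(t) u₀(t)`, `B = D(t) u₁(t)`, where `u₀`, `u₁`, `u₂ = u₀ - u₁` are polynomials with
integer coefficients, `u_k` a constant times a product of `n_k` irreducible polynomials, and `D` is an
arbitrary polynomial, not divisible by these; `E : y² = x (x - A) (x - B)`. For a squarefree divisor
`b₁` of `A B` the curve of genus one `C : N² = b₁ M⁴ - (A + B) M² e² + (A B / b₁) e⁴` is a covering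
of `E` of degree two. As `b₁ N² = (b₁ M² - A e²) (b₁ M² - B e²)`, the quaternion algebras
`(b₁ M² - A e², q)`, `q` a nonzero integer, are elements of the Brauer group of `C`. The curves `C`
with points everywhere locally for which no adelic point is orthogonal to these classes have an
empty Brauer-Manin set, so they have no rational point and the assertion of the problem holds for
them. We show that the number of the other curves `C` with points everywhere locally is bounded on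
average, and that in the strictly balanced case all its moments are bounded off a set of density
zero, although the number of all the curves `C` with points everywhere locally tends to infinity for
almost all `t`.
-/

set_option autoImplicit false

namespace Pool.Agent.Results.MP_ab3ecb_nt.BrauerManinPencils

open Finset Polynomial

/-- the curve `C : N² = b₁ M⁴ - (A + B) M² e² + (A B / b₁) e⁴` has a point over `K`, with
`(M, e) ≠ (0, 0)` -/
def Solvable (K : Type) [Field K] (A B b₁ : ℤ) : Prop := ∃ N M e : K, (M ≠ 0 ∨ e ≠ 0) ∧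
  N ^ 2 = (b₁ : K) * M ^ 4 + ((-(A + B) : ℤ) : K) * M ^ 2 * e ^ 2 +
    ((A * B / b₁ : ℤ) : K) * e ^ 4

/-- the squarefree `b₁ ∣ A B` for which `C` has points everywhere locally -/
def ELS (A B : ℤ) : Set ℤ := {b₁ | Squarefree b₁ ∧ b₁ ∣ A * B ∧ Solvable ℝ A B b₁ ∧
  ∀ (p : ℕ) [Fact p.Prime], Solvable ℚ_[p] A B b₁}

/-- A point over `K` of the curve `C : N² = b₁ M⁴ - (A + B) M² e² + (A B / b₁) e⁴` in a weighted
projective plane. -/
structure Pt (K : Type) [Field K] (A B b₁ : ℤ) where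
  /-- the first coordinate of weight one -/
  M : K
  /-- the second coordinate of weight one -/
  e : K
  /-- the coordinate of weight two -/
  N : K
  ne : M ≠ 0 ∨ e ≠ 0
  eq : N ^ 2 = (b₁ : K) * M ^ 4 + ((-(A + B) : ℤ) : K) * M ^ 2 * e ^ 2 +
    ((A * B / b₁ : ℤ) : K) * e ^ 4

open Classical in
/-- The value of `b₁ M² - A e²` at a point, modulo squares. As
`b₁ N² = (b₁ M² - A e²) (b₁ M² - B e²)`, it is computed from the other factor at a zero. -/
noncomputable def value {K : Type} [Field K] {A B b₁ : ℤ} (P : Pt K A B b₁) : K :=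
  if (b₁ : K) * P.M ^ 2 - (A : K) * P.e ^ 2 ≠ 0 then (b₁ : K) * P.M ^ 2 - (A : K) * P.e ^ 2
  else (b₁ : K) * ((b₁ : K) * P.M ^ 2 - (B : K) * P.e ^ 2)

/-- an adelic point of `C` -/
structure Adelic (A B b₁ : ℤ) where
  /-- the real component -/
  re : Pt ℝ A B b₁
  /-- the `p`-adic components -/
  pa : ∀ p : Nat.Primes, Pt ℚ_[(p : ℕ)] A B b₁

/-- The quaternion algebra `(a, b)` over `F` splits, that is, the Hilbert symbol `(a, b)` is `1`:
the conic `z ^ 2 = a x ^ 2 + b y ^ 2` has a point over `F`. -/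
def Splits {F : Type} [Field F] (a b : F) : Prop :=
  ∃ x y z : F, (x ≠ 0 ∨ y ≠ 0 ∨ z ≠ 0) ∧ z ^ 2 = a * x ^ 2 + b * y ^ 2

/-- The set of the places (`none` is the real one) at which the value of the class
`(b₁ M² - A e², q)` of the Brauer group of `C` at the adelic point is not trivial. -/
def Ram {A B b₁ : ℤ} (P : Adelic A B b₁) (q : ℤ) : Set (Option Nat.Primes) :=
  {v | match v with
    | none => ¬ Splits (value P.re) (q : ℝ)
    | some p => ¬ Splits (value (P.pa p)) (q : ℚ_[(p : ℕ)])}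

/-- the `b₁` in `ELS A B` such that some adelic point of `C` is orthogonal to the classes
`(b₁ M² - A e², q)`, where `q` is `-1`, `2` or `q = 1` modulo `4` and `|q|` is a prime: the number of
the places at which the value is not trivial is even -/
def Unobstructed (A B : ℤ) : Set ℤ := {b₁ | b₁ ∈ ELS A B ∧ ∃ P : Adelic A B b₁, ∀ q : ℤ,
  (q = -1 ∨ q = 2 ∨ (q.natAbs.Prime ∧ q % 4 = 1)) → Even (Ram P q).ncard}

/-- the point of the library -/
def toPnt {K : Type} [Field K] {A B b₁ : ℤ} (P : Pt K A B b₁) :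
    Pool.Agent.TH841.FD.Pnt A B b₁ K := ⟨P.M, P.e, P.N, P.ne, P.eq⟩

/-- the adelic point of the library -/
noncomputable def toAdel {A B b₁ : ℤ} (P : Adelic A B b₁) : Pool.Agent.TH841.FD.Adel A B b₁ :=
  ⟨toPnt P.re, fun p => toPnt (P.pa p)⟩

lemma ram_eq {A B b₁ : ℤ} (P : Adelic A B b₁) (q : ℤ) :
    Pool.Agent.W313.BMX.ram (Pool.Agent.TH841.FD.vals (toAdel P)) q = Ram P q := by
  ext v
  cases v with
  | none => exact Iff.rfl
  | some p => exact Iff.rfl

lemma sub_lf {A B : ℤ} (hAB : A ≠ B) : Unobstructed A B ⊆ Pool.Agent.TH841.FD.LF A B := by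
  rintro b₁ ⟨h1, P, h2⟩
  refine ⟨h1, ?_⟩
  refine Pool.Agent.TH841.FD.cov_of_orth h1.1.ne_zero hAB h1.2.1 (toAdel P) fun q hq => ?_
  rw [ram_eq]
  exact h2 q hq

lemma card_le {A B : ℤ} (hA : A ≠ 0) (hB : B ≠ 0) (hAB : A ≠ B) :
    ((Unobstructed A B).ncard : ℝ) ≤ ((Pool.Agent.TH841.FD.LF A B).ncard : ℝ) :=
  Nat.cast_le.2 (Set.ncard_le_ncard (sub_lf hAB) (Pool.Agent.Q323.FM.lf_fin hA hB))

lemma ram_finite {A B b₁ : ℤ} (hAB : A ≠ B) (hb : b₁ ≠ 0) (hd : b₁ ∣ A * B)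
    (P : Adelic A B b₁) {q : ℤ} (hq : q ≠ 0) : (Ram P q).Finite := by
  rw [← ram_eq]
  exact Pool.Agent.TH841.FD.ram_fin hb hAB hd (toAdel P) q hq

/-- `u_k = a_k ∏ f_{k,i}` -/
noncomputable def u {n : Fin 3 → ℕ} (a : Fin 3 → ℤ) (f : ∀ k : Fin 3, Fin (n k) → ℤ[X])
    (k : Fin 3) : ℤ[X] := C (a k) * ∏ i, f k i

/-- `v` is a square modulo `f` in `ℚ[t]` -/
def SqMod (f v : ℤ[X]) : Prop := ∃ q : ℚ[X], f.map (Int.castRingHom ℚ) ∣
  (q ^ 2 - v.map (Int.castRingHom ℚ))

/-- `- D u₁`, `- D u₀`, `D u₀` -/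
noncomputable def v {n : Fin 3 → ℕ} (a : Fin 3 → ℤ) (f : ∀ k : Fin 3, Fin (n k) → ℤ[X])
    (D : ℤ[X]) : Fin 3 → ℤ[X] := ![-(D * u a f 1), -(D * u a f 0), D * u a f 0]

open Classical in
/-- the balance condition: `2 n_k + s_k ≤ n₀ + n₁ + n₂` for all `k`, where `s_k` is the number of
the factors `f_{k,i}` modulo which `v_k` is a square -/
def Balanced {n : Fin 3 → ℕ} (a : Fin 3 → ℤ) (f : ∀ k : Fin 3, Fin (n k) → ℤ[X])
    (D : ℤ[X]) : Prop :=
  ∀ k, 2 * n k + (univ.filter (fun i => SqMod (f k i) (v a f D k))).card ≤ n 0 + n 1 + n 2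

open Classical in
/-- the constant `κ = n₀ + n₁ - (n₂ + s) / 2 + r / 2`, where `s` is the number of the factors of
`u₂` modulo which `D u₀` is a square, and `r` the number of the `g_i` modulo which `u₀ u₁` is not
a square -/
noncomputable def κ {n : Fin 3 → ℕ} {m : ℕ} (a : Fin 3 → ℤ) (f : ∀ k : Fin 3, Fin (n k) → ℤ[X])
    (D : ℤ[X]) (g : Fin m → ℤ[X]) : ℝ :=
  (n 0 : ℝ) + n 1 -
    ((n 2 : ℝ) + (univ.filter (fun i => SqMod (f 2 i) (D * u a f 0))).card) / 2 +
    ((univ.filter (fun i => ¬ SqMod (g i) (u a f 0 * u a f 1))).card : ℝ) / 2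

open Classical in
/-- the integers `N < t ≤ N + M` with `(D u_k)(t) ≠ 0` for all `k` -/
noncomputable def Par {n : Fin 3 → ℕ} (a : Fin 3 → ℤ) (f : ∀ k : Fin 3, Fin (n k) → ℤ[X])
    (D : ℤ[X]) (N : ℤ) (M : ℕ) : Finset ℤ :=
  (Ioc N (N + (M : ℤ))).filter (fun t => ∀ k, (D * u a f k).eval t ≠ 0)

open Classical in
/-- a set of integers of density zero, uniformly in all the intervals `(N, N + M]` with
`|N| ≤ M ^ L`, for every `L` -/
def DensityZero (Z : Set ℤ) : Prop := ∀ (L : ℕ) (ε : ℝ), 0 < ε → ∃ M₀ : ℕ, ∀ (N : ℤ) (M : ℕ),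
  M₀ ≤ M → |N| ≤ (M : ℤ) ^ L → (((Ioc N (N + (M : ℤ))).filter (fun t => t ∈ Z)).card : ℝ) ≤ ε * M

open Classical in
/-- **Theorem.** (1) Let `A ≠ B` and let `b₁` be a nonzero divisor of `A B`. For every adelic point
of `C` and every integer `q ≠ 0` the number of the places in `Ram` is finite.
Let `u_k = a_k ∏_{i < n_k} f_{k,i}`, `k = 0, 1, 2`, with `u₀ - u₁ = u₂`, where the `a_k` are nonzero
and the `n₀ + n₁ + n₂` polynomials `f_{k,i}` with integer coefficients are irreducible of positive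
degree and pairwise non-associated; let `D ≠ 0` be a polynomial with integer coefficients divisible
by none of the `f_{k,i}`. Write `A = (D u₀)(t)`, `B = (D u₁)(t)`.
(2) Assume the balance condition. For every `L` there is `K` such that for `M ≥ 1` and
`|N| ≤ M ^ L` the sum of `#Unobstructed A B` over the `t` in `(N, N + M]` with `A`, `B`, `A - B`
nonzero is at most `K M`.
(3) Assume that `2 n_k < n₀ + n₁ + n₂` for all `k`. There is a set `Z` of density zero such that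
`A`, `B`, `A - B` are nonzero for `t` outside of `Z` and for all `s` and `L` there is `K` such that
for `M ≥ 1` and `|N| ≤ M ^ L` the sum of `(#Unobstructed A B) ^ s` over the `t` in `(N, N + M]`
outside of `Z` is at most `K M`.
(4) Assume the balance condition, and `D = c g₁ ⋯ g_m` with irreducible pairwise non-associated
`g_i` of positive degree. For all `δ, ε > 0` and `L` there is `M₀` such that for `M ≥ M₀` and
`|N| ≤ M ^ L` the inequality `#ELS A B ≥ (log M) ^ (κ log 2 - δ)` holds for all the `t` in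
`(N, N + M]` with at most `ε M` exceptions. -/
theorem result :
    (∀ A B b₁ : ℤ, A ≠ B → b₁ ≠ 0 → b₁ ∣ A * B → ∀ (P : Adelic A B b₁) (q : ℤ), q ≠ 0 →
      (Ram P q).Finite) ∧
    ∀ (n : Fin 3 → ℕ) (a : Fin 3 → ℤ) (f : ∀ k : Fin 3, Fin (n k) → ℤ[X])
    (D : ℤ[X]) (_ : ∀ k, a k ≠ 0) (_ : D ≠ 0)
    (_ : ∀ k i, Irreducible (f k i) ∧ 0 < (f k i).natDegree)
    (_ : ∀ k i l j, (⟨k, i⟩ : Σ k : Fin 3, Fin (n k)) ≠ ⟨l, j⟩ → ¬ Associated (f k i) (f l j))
    (_ : u a f 0 - u a f 1 = u a f 2) (_ : ∀ k i, ¬ f k i ∣ D),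
    (Balanced a f D → ∀ L : ℕ, ∃ K : ℝ, ∀ (N : ℤ) (M : ℕ), 1 ≤ M → |N| ≤ (M : ℤ) ^ L →
      ∑ t ∈ Par a f D N M,
        ((Unobstructed ((D * u a f 0).eval t) ((D * u a f 1).eval t)).ncard : ℝ) ≤ K * M) ∧
    ((∀ k, 2 * n k < n 0 + n 1 + n 2) → ∃ Z : Set ℤ, DensityZero Z ∧
      (∀ t, t ∉ Z → ∀ k, (D * u a f k).eval t ≠ 0) ∧
      ∀ s L : ℕ, ∃ K : ℝ, ∀ (N : ℤ) (M : ℕ), 1 ≤ M → |N| ≤ (M : ℤ) ^ L →
        ∑ t ∈ (Ioc N (N + (M : ℤ))).filter (fun t => t ∉ Z),
          ((Unobstructed ((D * u a f 0).eval t) ((D * u a f 1).eval t)).ncard : ℝ) ^ s ≤ K * M) ∧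
    (Balanced a f D → ∀ (m : ℕ) (c : ℤ) (g : Fin m → ℤ[X]), D = C c * ∏ i, g i →
      (∀ i, Irreducible (g i) ∧ 0 < (g i).natDegree) →
      (∀ i j, i ≠ j → ¬ Associated (g i) (g j)) →
      ∀ (δ ε : ℝ) (L : ℕ), 0 < δ → 0 < ε →
      ∃ M₀ : ℕ, ∀ (N : ℤ) (M : ℕ), M₀ ≤ M → |N| ≤ (M : ℤ) ^ L →
        (((Ioc N (N + (M : ℤ))).filter (fun t => ¬
          (Real.log M) ^ (κ a f D g * Real.log 2 - δ) ≤
            ((ELS ((D * u a f 0).eval t) ((D * u a f 1).eval t)).ncard : ℝ))).card : ℝ) ≤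
          ε * M) := by
  refine ⟨fun A B b₁ hAB hb hd P q hq => ram_finite hAB hb hd P hq, ?_⟩
  intro n a f D ha hD hf hff hu hDf
  have hirr0 : Pool.Agent.TH841.PT.Irr (Pool.Agent.TH841.TR.fp f) :=
    ⟨fun x => (hf x.1 x.2).1, fun x => (hf x.1 x.2).2, fun x y hxy => hff x.1 x.2 y.1 y.2 hxy⟩
  have hlf : ∀ t, (∀ k, (D * u a f k).eval t ≠ 0) →
      ((Unobstructed ((D * u a f 0).eval t) ((D * u a f 1).eval t)).ncard : ℝ) ≤
        ((Pool.Agent.TH841.FD.LF ((D * u a f 0).eval t) ((D * u a f 1).eval t)).ncard : ℝ) :=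
    fun t ht => card_le (ht 0) (ht 1) (Pool.Agent.Q323.FM.pen_ne hu ht)
  have hbal : Balanced a f D → Pool.Agent.TH841.TR.Bal D a f := fun hb =>
    Pool.Agent.TH841.TR.bal_of (v := v a f D) rfl rfl rfl fun k => hb k
  refine ⟨fun hb L => ?_, fun hn => ?_, fun hb m c g hDg hg hgg δ ε L hδ hε => ?_⟩
  · obtain ⟨K, hK⟩ := Pool.Agent.Q323.FM.pen_avg ha hD hirr0 hu hDf (hbal hb) L
    exact ⟨K, fun N M hM hN => le_trans (sum_le_sum fun t ht => hlf t (mem_filter.1 ht).2)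
      (hK N M hM hN)⟩
  · obtain ⟨Z, h1, h2, h3⟩ := Pool.Agent.Q323.FM.pen_mom ha hD hirr0 hu hDf hn
    refine ⟨Z, h1, h2, fun s L => ?_⟩
    obtain ⟨K, hK⟩ := h3 s L
    exact ⟨K, fun N M hM hN => le_trans (sum_le_sum fun t ht => pow_le_pow_left₀
      (Nat.cast_nonneg _) (hlf t (h2 t (mem_filter.1 ht).2)) s) (hK N M hM hN)⟩
  · have hDG : Pool.Agent.TH841.LS.DG c g = D := hDg.symm
    have hsc : Pool.Agent.TH841.LS.sc a f c g = κ a f D g := by
      unfold Pool.Agent.TH841.LS.sc κ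
      rw [hDG]
      rfl
    obtain ⟨M1, h1⟩ := Pool.Agent.Q323.FM.pen_els ha hD hf hff hu hDf (hbal hb) hDg hg hgg δ ε L
      hδ hε
    rw [hsc] at h1
    refine ⟨M1, fun N M hM hN => le_trans (Nat.cast_le.2 (card_le_card fun t ht => ?_))
      (h1 N M hM hN)⟩
    obtain ⟨ht1, ht2⟩ := mem_filter.1 ht
    refine mem_filter.2 ⟨ht1, fun hall => ht2 ?_⟩
    exact (hall _ _ rfl rfl).2.2.2

end Pool.Agent.Results.MP_ab3ecb_nt.BrauerManinPencils
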