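import Pool.Agent.Results.MP_ab3ecb_nt.ApproximationOnTwists
import Pool.Agent.Q319.WN.Weak2

/-!
# The Brauer-Manin sets of ALL quadratic twists near the multiples and the dilates of almost every real number

Let `ℓ k = α k * x + β k * w` (`k ∈ K`, `|K| = 2 g + 2 ≥ 6`) be linear forms with integral coefficients, in general position
in the sense of `Generic`, and let `C d` be the curve `d y² = ∏ k, ℓ k (x, w)` of genus `g` over `ℚ`. For almost all real
numbers `y` of size `N ^ (1 - θ)` and all `n ≤ N ^ θ`, with at most `C w N ^ θ / (log N) ^ (1/5)` exceptions, the following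
holds for ALL squarefree `d` with `||d| - n y| ≤ w`: an adelic point of `C d` is orthogonal to the classes
`(ℓ k / ℓ l, e)` of the Brauer group if and only if it has, in every completion of `ℚ`, the 2-covering type of one rational
Weierstrass point. If `∑ w_n / (log v_n) ^ (1/5)` converges then for almost every real `γ > 0` and all large `n` this is so
for ALL squarefree `d` with `||d| - γ v_n| ≤ w_n`.

From Mathlib: `Squarefree`; `volume`: the Lebesgue measure; `∀ᵐ`: for almost all real numbers; `∀ᶠ k in atTop`: for all
large `k`. The bound for the number of exceptional twists is from the starting files (`ApproximationOnTwists`, with the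
definitions of the curves, their adelic points, `Orthogonal`, `SameEverywhere`, `Generic`), as well as the count of the
elements of arbitrary sets of integers in intervals at multiples of real numbers (`Pool.Agent.H438R2.DL`).
`ScarceAtMultiples` and `ScarceAtDilates` are defined in `Pool.Agent.Q319.WN.Weak`.
-/

set_option autoImplicit false

namespace Pool.Agent.Results.MP_ab3ecb_nt.TwistsAtRealMultiples

open Pool.Agent.Q319.WN Pool.Agent.Results.MP_ab3ecb_nt.ApproximationOnTwists

/-- `d` is squarefree, and it is NOT true that an adelic point of `C d` is orthogonal to the classes `(ℓ k / ℓ l, e)` if and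
only if it has everywhere the 2-covering type of one rational Weierstrass point. -/
def Exceptional {K : Type} [Fintype K] [DecidableEq K] (α β : K → ℤ) (d : ℤ) : Prop :=
  Squarefree d ∧ ¬ ∀ P : AdelicPoint α β d, Orthogonal P ↔ ∃ Q : Point α β d ℚ, Q.y = 0 ∧ SameEverywhere P Q

/-- Let the linear forms be in general position, `|K|` even and `≥ 6`.
1. (multiples) For `0 < θ < 1` there are `c > 0` and `C` such that for all large `N`, `1 ≤ w ≤ N ^ c` and all real `y` with
   `N ^ (1 - θ) ≤ y ≤ 2 N ^ (1 - θ)` outside a set of measure at most `N ^ (1 - θ - c)`: for all `n ≤ N ^ θ` with at most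
   `C w N ^ θ / (log N) ^ (1/5)` exceptions there is no exceptional `d` with `||d| - n y| ≤ w`.
2. (dilates) For all `v n ≥ 3` and `0 ≤ w n ≤ v n` for which `∑ w n / (log (v n)) ^ (1/5)` converges and almost every real
   `γ > 0`: for all large `n` there is no exceptional `d` with `||d| - γ v n| ≤ w n`. For example `v n = exp (n ^ s)`,
   `w n = n ^ t` with `s > 5 (t + 1)`. -/
theorem result (K : Type) [Fintype K] [DecidableEq K] (α β : K → ℤ) (hK : 6 ≤ Fintype.card K)
    (hev : Even (Fintype.card K)) (hg : Generic α β) :
    ScarceAtMultiples (1 / 5) (Exceptional α β) ∧ ScarceAtDilates (1 / 5) (Exceptional α β) := by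
  obtain ⟨⟨C, hC⟩, -⟩ := ApproximationOnTwists.result K α β hK hev hg
  exact scarce_both (by norm_num) hC

end Pool.Agent.Results.MP_ab3ecb_nt.TwistsAtRealMultiples
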